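import Mathlib
import Pool.Agent.Q13.LagrangeInt

/-!
# `Int_K(A)` integrally closed does not force `A = A'`

`D = ℚ[t]`, `A = D + t i D` inside `ℚ(t)(i)`, that is `A = D[Y]/(Y² + t²)`.  Since `ℚ ⊆ D`,
Lagrange interpolation gives `Int_K(A) = D[X]`, which is integrally closed; but `i` is
integral over `D` and not in `A`.
-/

open Polynomial TensorProduct

namespace Pool.Agent.Results.MP_f9f43c_al.IntClosedNotMax

universe u v

/-- `Int_K(A)`: the ring of the polynomials `f` with coefficients in the field of fractions `K`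
of `D` with `f(a) ∈ A` for all `a ∈ A`, evaluation taking place in the `K`-algebra
`B = K ⊗_D A`. -/
noncomputable def IntK (D : Type u) [CommRing D] [IsDomain D] (A : Type v) [Ring A]
    [Algebra D A] : Subring (FractionRing D)[X] where
  carrier := {f | ∀ a : A,
    aeval ((1 : FractionRing D) ⊗ₜ[D] a) f ∈
      Set.range (fun x : A => (1 : FractionRing D) ⊗ₜ[D] x)}
  mul_mem' := by
    intro f g hf hg a
    obtain ⟨x, hx⟩ := hf a
    obtain ⟨y, hy⟩ := hg a
    refine ⟨x * y, ?_⟩
    rw [map_mul, ← hx, ← hy]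
    simp
  one_mem' := fun a => ⟨1, by rw [map_one]; rfl⟩
  add_mem' := by
    intro f g hf hg a
    obtain ⟨x, hx⟩ := hf a
    obtain ⟨y, hy⟩ := hg a
    refine ⟨x + y, ?_⟩
    rw [map_add, ← hx, ← hy]
    simp [tmul_add]
  zero_mem' := fun a => ⟨0, by simp⟩
  neg_mem' := by
    intro f hf a
    obtain ⟨x, hx⟩ := hf a
    refine ⟨-x, ?_⟩
    rw [map_neg, ← hx]
    simp [tmul_neg]

/-- The base ring `ℚ[t]`. -/
abbrev D : Type := ℚ[X]

/-- The quotient field `ℚ(t)`. -/
abbrev K : Type := FractionRing D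

/-- The algebra `D[Y]/(Y² + t²)`. -/
abbrev A : Type := QuadraticAlgebra D (-X ^ 2) 0

/-- Extension of a linear form on `A` to `K ⊗ A`. -/
noncomputable def ext (g : A →ₗ[D] D) : K ⊗[D] A →ₗ[D] K :=
  (TensorProduct.rid D K).toLinearMap ∘ₗ LinearMap.lTensor K g

theorem ext_tmul (g : A →ₗ[D] D) (k : K) (a : A) : ext g (k ⊗ₜ a) = g a • k := by
  simp [ext]

/-- The linear form real part. -/
noncomputable def re : A →ₗ[D] D := QuadraticAlgebra.reₗ _ _

/-- The linear form imaginary part. -/
noncomputable def im : A →ₗ[D] D := QuadraticAlgebra.imₗ _ _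

theorem mem_range_of_mem {f : K[X]} (hf : f ∈ IntK D A) :
    ∃ g : D[X], g.map (algebraMap D K) = f := by
  apply Q13.LagrangeInt.exists_map_eq (k := ℚ)
  intro n
  obtain ⟨x, hx⟩ := hf ((n : D) • (1 : A))
  have h1 : (1 : K) ⊗ₜ[D] ((n : D) • (1 : A)) = algebraMap K (K ⊗[D] A) (n : K) := by
    rw [TensorProduct.tmul_smul, Algebra.TensorProduct.algebraMap_apply, TensorProduct.smul_tmul']
    simp [Algebra.smul_def]
  rw [h1, aeval_algebraMap_apply, Algebra.TensorProduct.algebraMap_apply] at hx
  have h2 := congrArg (ext re) hx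
  simp only [ext_tmul] at h2
  refine ⟨re x, ?_⟩
  have h3 : re (1 : A) = 1 := rfl
  rw [h3, one_smul] at h2
  rw [Algebra.algebraMap_eq_smul_one, h2]
  simp [aeval_def]

theorem mem_of_map (g : D[X]) : g.map (algebraMap D K) ∈ IntK D A := by
  intro a
  refine ⟨aeval a g, ?_⟩
  rw [aeval_map_algebraMap]
  have := (aeval_algHom_apply (Algebra.TensorProduct.includeRight : A →ₐ[D] K ⊗[D] A) a g)
  exact this.symm

theorem isIntegrallyClosed : IsIntegrallyClosed (IntK D A) := by
  have e : D[X] ≃+* IntK D A := RingEquiv.ofBijective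
    ((mapRingHom (algebraMap D K)).codRestrict (IntK D A) mem_of_map) (by
      constructor
      · intro p q hpq
        have := congrArg Subtype.val hpq
        exact Polynomial.map_injective _ (IsFractionRing.injective D K) this
      · rintro ⟨f, hf⟩
        obtain ⟨g, hg⟩ := mem_range_of_mem hf
        exact ⟨g, Subtype.ext hg⟩)
  exact IsIntegrallyClosed.of_equiv e

/-- The element `i = t⁻¹ ⊗ Y`. -/
noncomputable def b : K ⊗[D] A := (algebraMap D K X)⁻¹ ⊗ₜ (⟨0, 1⟩ : A)

theorem t_ne : algebraMap D K X ≠ 0 := by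
  rw [Ne, map_eq_zero_iff _ (IsFractionRing.injective D K)]
  exact X_ne_zero

theorem b_sq : b ^ 2 = -1 := by
  rw [pow_two b]
  unfold b
  rw [Algebra.TensorProduct.tmul_mul_tmul]
  have : (⟨0, 1⟩ : A) * ⟨0, 1⟩ = (-X ^ 2 : D) • (1 : A) := by
    ext1
    · simp only [QuadraticAlgebra.re_mul, QuadraticAlgebra.re_smul]
      have : (1 : A).re = 1 := rfl
      rw [this]
      simp
    · simp only [QuadraticAlgebra.im_mul, QuadraticAlgebra.im_smul]
      have : (1 : A).im = 0 := rfl
      rw [this]
      simp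
  rw [this, TensorProduct.tmul_smul, TensorProduct.smul_tmul', Algebra.smul_def, map_neg, map_pow]
  have h := t_ne
  have : -(algebraMap D K X) ^ 2 * ((algebraMap D K X)⁻¹ * (algebraMap D K X)⁻¹) = -1 := by
    field_simp
  rw [this, TensorProduct.neg_tmul]
  rfl

theorem b_int : IsIntegral D b := by
  refine ⟨X ^ 2 + C 1, monic_X_pow_add_C _ (by norm_num), ?_⟩
  rw [← aeval_def]
  simp [b_sq]

theorem b_not_mem : b ∉ Set.range (fun x : A => (1 : K) ⊗ₜ[D] x) := by
  rintro ⟨x, hx⟩
  have h2 := congrArg (ext im) hx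
  unfold b at h2
  simp only [ext_tmul] at h2
  have h3 : im (⟨0, 1⟩ : A) = 1 := rfl
  rw [h3, one_smul, Algebra.smul_def, mul_one] at h2
  have h4 : algebraMap D K (im x * X) = algebraMap D K 1 := by
    rw [map_mul, h2, inv_mul_cancel₀ t_ne, map_one]
  have h5 := IsFractionRing.injective D K h4
  have h6 := congrArg (Polynomial.eval 0) h5
  simp at h6

/-- There are an integrally closed domain `D` and a torsion-free, module-finite `D`-algebra `A`
containing `D` such that `Int_K(A)` is integrally closed but some element of `K ⊗_D A`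
that is integral over `D` does not lie in `A`. -/
theorem result :
    ∃ (D : Type) (_ : CommRing D) (_ : IsDomain D) (A : Type) (_ : Ring A) (_ : Algebra D A),
      IsIntegrallyClosed D ∧ Function.Injective (algebraMap D A) ∧
      Module.IsTorsionFree D A ∧ Module.Finite D A ∧
      IsIntegrallyClosed (IntK D A) ∧
      ∃ b : FractionRing D ⊗[D] A, IsIntegral D b ∧
        b ∉ Set.range (fun x : A => (1 : FractionRing D) ⊗ₜ[D] x) :=
  ⟨D, inferInstance, inferInstance, A, inferInstance, inferInstance, inferInstance,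
    QuadraticAlgebra.algebraMap_injective, inferInstance, inferInstance, isIntegrallyClosed,
    b, b_int, b_not_mem⟩

end Pool.Agent.Results.MP_f9f43c_al.IntClosedNotMax
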